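import Mathlib

set_option autoImplicit false

/-!
# The dominant term of `∑ l^j v_l (-τ)^l`
-/

open Filter Topology

namespace Q195.ZG

/-- distance of naturals -/
def ee (k l : ℕ) : ℕ := (l - k) + (k - l)

theorem up_est {k : ℕ} (hk : 1 ≤ k) {b q : ℝ} (hb0 : 0 ≤ b) (hq : b * (k + 1) ≤ q * k) (n : ℕ) :
    ((k : ℝ) + n) * b ^ n ≤ k * q ^ n := by
  have hk0 : (0 : ℝ) < k := by exact_mod_cast hk
  have hq0 : 0 ≤ q := by
    by_contra h
    push Not at h
    have h1 : q * k < 0 := mul_neg_of_neg_of_pos h hk0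
    have h2 : 0 ≤ b * (k + 1) := by positivity
    linarith
  induction n with
  | zero => simp
  | succ n ih =>
    have h1 : ((k : ℝ) + (n + 1)) * b ≤ (k + n) * q := by
      have h2 : ((k : ℝ) + (n + 1)) * k ≤ (k + n) * (k + 1) := by
        have : (0 : ℝ) ≤ n := Nat.cast_nonneg n
        nlinarith
      have h3 : (((k : ℝ) + (n + 1)) * b) * k ≤ ((k + n) * q) * k := by
        calc (((k : ℝ) + (n + 1)) * b) * k = (((k : ℝ) + (n + 1)) * k) * b := by ring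
          _ ≤ ((k + n) * (k + 1)) * b := mul_le_mul_of_nonneg_right h2 hb0
          _ = (k + n) * (b * (k + 1)) := by ring
          _ ≤ (k + n) * (q * k) := mul_le_mul_of_nonneg_left hq (by positivity)
          _ = _ := by ring
      exact le_of_mul_le_mul_right h3 hk0
    push_cast
    calc ((k : ℝ) + (n + 1)) * b ^ (n + 1) = (((k : ℝ) + (n + 1)) * b) * b ^ n := by ring
      _ ≤ ((k + n) * q) * b ^ n := mul_le_mul_of_nonneg_right h1 (by positivity)
      _ = ((k + n) * b ^ n) * q := by ring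
      _ ≤ (k * q ^ n) * q := mul_le_mul_of_nonneg_right ih hq0
      _ = _ := by ring

theorem down_est {k : ℕ} {a q : ℝ} (hk : 1 ≤ k) (hq : (k : ℝ) - 1 ≤ q * a * k) (n : ℕ) (hn : n ≤ k) :
    ((k : ℝ) - n) ≤ k * (q * a) ^ n := by
  have hk0 : (0 : ℝ) < k := by exact_mod_cast hk
  have hk1 : (1 : ℝ) ≤ k := by exact_mod_cast hk
  have hqa : 0 ≤ q * a := by
    by_contra h
    push Not at h
    have := mul_neg_of_neg_of_pos h hk0
    linarith
  induction n with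
  | zero => simp
  | succ n ih =>
    have h1 := ih (by omega)
    have hnk : ((n : ℝ) + 1) ≤ k := by exact_mod_cast hn
    have h2 : ((k : ℝ) - (n + 1)) * k ≤ (k - n) * (k - 1) := by
      have : (0 : ℝ) ≤ n := Nat.cast_nonneg n
      nlinarith
    have h3 : ((k : ℝ) - (n + 1)) * k ≤ ((k - n) * (q * a)) * k := by
      calc ((k : ℝ) - (n + 1)) * k ≤ (k - n) * (k - 1) := h2
        _ ≤ (k - n) * (q * a * k) := mul_le_mul_of_nonneg_left hq (by linarith)
        _ = _ := by ring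
    have h4 : ((k : ℝ) - (n + 1)) ≤ (k - n) * (q * a) := le_of_mul_le_mul_right h3 hk0
    push_cast
    calc ((k : ℝ) - (n + 1)) ≤ (k - n) * (q * a) := h4
      _ ≤ (k * (q * a) ^ n) * (q * a) := mul_le_mul_of_nonneg_right h1 hqa
      _ = _ := by ring

/-- The comparison of the terms. -/
theorem term_le {k : ℕ} (hk : 1 ≤ k) {a b q : ℝ} (ha0 : 0 < a) (hb0 : 0 ≤ b) (hq0 : 0 < q)
    (hq1 : q ≤ 1) (h1 : b * (k + 1) ≤ q * k) (h2 : (k : ℝ) - 1 ≤ q * a * k) {N : ℕ} (hN : 1 ≤ N)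
    {τ : ℝ} (hτa : a ^ N ≤ τ) (hτb : τ ≤ b ^ N) {j : ℕ} (hj : j ≤ N) {l : ℕ} (hl : l ≠ k)
    (hlj : l < k → j = N) :
    (l : ℝ) ^ j * τ ^ l ≤ (k : ℝ) ^ j * τ ^ k * (q ^ (N - 1) * q ^ ee k l) := by
  have hk0 : (0 : ℝ) < k := by exact_mod_cast hk
  have hτ0 : 0 < τ := (pow_pos ha0 N).trans_le hτa
  have key : (l : ℝ) ^ j * τ ^ l ≤ (k : ℝ) ^ j * τ ^ k * q ^ (N * ee k l) := by
    rcases lt_or_gt_of_ne hl with h | h
    · -- below
      have hjN := hlj h
      subst hjN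
      obtain ⟨n, rfl⟩ : ∃ n, k = l + n := ⟨k - l, by omega⟩
      have e1 : ee (l + n) l = n := by unfold ee; omega
      rw [e1]
      have h3 := down_est hk h2 n (by omega)
      have e2 : (((l + n : ℕ) : ℝ) - n) = l := by push_cast; ring
      rw [e2] at h3
      have h4 : (l : ℝ) ^ j ≤ ((l + n : ℕ) : ℝ) ^ j * (a ^ j) ^ n * q ^ (j * n) := by
        calc (l : ℝ) ^ j ≤ (((l + n : ℕ) : ℝ) * (q * a) ^ n) ^ j :=
              pow_le_pow_left₀ (Nat.cast_nonneg l) h3 j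
          _ = _ := by
              rw [mul_pow, mul_pow, mul_pow, ← pow_mul, ← pow_mul, ← pow_mul]
              rw [Nat.mul_comm n j]
              ring
      have h5 : (a ^ j) ^ n ≤ τ ^ n := pow_le_pow_left₀ (by positivity) hτa n
      calc (l : ℝ) ^ j * τ ^ l ≤ (((l + n : ℕ) : ℝ) ^ j * (a ^ j) ^ n * q ^ (j * n)) * τ ^ l :=
            mul_le_mul_of_nonneg_right h4 (by positivity)
        _ ≤ (((l + n : ℕ) : ℝ) ^ j * τ ^ n * q ^ (j * n)) * τ ^ l := by gcongr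
        _ = _ := by rw [pow_add]; ring
    · obtain ⟨n, rfl⟩ : ∃ n, l = k + n := ⟨l - k, by omega⟩
      have e1 : ee k (k + n) = n := by unfold ee; omega
      rw [e1]
      have h3 := up_est hk hb0 h1 n
      have h4 : ((k : ℝ) + n) ^ N * (b ^ N) ^ n ≤ (k : ℝ) ^ N * q ^ (N * n) := by
        calc ((k : ℝ) + n) ^ N * (b ^ N) ^ n = (((k : ℝ) + n) * b ^ n) ^ N := by
              rw [mul_pow, ← pow_mul, ← pow_mul, Nat.mul_comm]
          _ ≤ (k * q ^ n) ^ N := pow_le_pow_left₀ (by positivity) h3 N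
          _ = _ := by rw [mul_pow, ← pow_mul, Nat.mul_comm n N]
      have h5 : τ ^ n ≤ (b ^ N) ^ n := pow_le_pow_left₀ hτ0.le hτb n
      have h6 : ((k : ℝ) + n) ^ N * τ ^ n ≤ (k : ℝ) ^ N * q ^ (N * n) :=
        (mul_le_mul_of_nonneg_left h5 (by positivity)).trans h4
      -- pass to exponent `j`
      have h7 : ((k : ℝ) + n) ^ j * τ ^ n ≤ (k : ℝ) ^ j * q ^ (N * n) := by
        have h8 : (k : ℝ) ^ (N - j) ≤ ((k : ℝ) + n) ^ (N - j) :=
          pow_le_pow_left₀ hk0.le (by linarith [(Nat.cast_nonneg n : (0 : ℝ) ≤ n)]) _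
        have h9 : (k : ℝ) ^ N = (k : ℝ) ^ (N - j) * (k : ℝ) ^ j := by
          rw [← pow_add, Nat.sub_add_cancel hj]
        have h10 : ((k : ℝ) + n) ^ N = ((k : ℝ) + n) ^ (N - j) * ((k : ℝ) + n) ^ j := by
          rw [← pow_add, Nat.sub_add_cancel hj]
        have hkp : 0 < (k : ℝ) ^ (N - j) := by positivity
        refine le_of_mul_le_mul_left ?_ hkp
        calc (k : ℝ) ^ (N - j) * (((k : ℝ) + n) ^ j * τ ^ n) ≤
              ((k : ℝ) + n) ^ (N - j) * (((k : ℝ) + n) ^ j * τ ^ n) :=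
              mul_le_mul_of_nonneg_right h8 (by positivity)
          _ = ((k : ℝ) + n) ^ N * τ ^ n := by rw [h10]; ring
          _ ≤ (k : ℝ) ^ N * q ^ (N * n) := h6
          _ = _ := by rw [h9]; ring
      push_cast
      calc ((k : ℝ) + n) ^ j * τ ^ (k + n) = (((k : ℝ) + n) ^ j * τ ^ n) * τ ^ k := by
            rw [pow_add]; ring
        _ ≤ ((k : ℝ) ^ j * q ^ (N * n)) * τ ^ k := mul_le_mul_of_nonneg_right h7 (by positivity)
        _ = _ := by ring
  refine key.trans (mul_le_mul_of_nonneg_left ?_ (by positivity))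
  rw [← pow_add]
  refine pow_le_pow_of_le_one hq0.le hq1 ?_
  have h3 : 1 ≤ ee k l := by unfold ee; omega
  obtain ⟨M, rfl⟩ : ∃ M, N = M + 1 := ⟨N - 1, by omega⟩
  obtain ⟨f, hf⟩ : ∃ f, ee k l = f + 1 := ⟨ee k l - 1, by omega⟩
  rw [hf, Nat.add_sub_cancel]
  nlinarith [Nat.zero_le (M * f)]

theorem summable_w {q : ℝ} (hq0 : 0 < q) (hq1 : q < 1) {v : ℕ → ℝ} {D : ℕ} {Cc : ℝ}
    (hv : ∀ l, |v l| ≤ Cc * ((l : ℝ) + 1) ^ D) (k : ℕ) : Summable fun l => |v l| * q ^ ee k l := by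
  have h1 : Summable fun n : ℕ => (n : ℝ) ^ D * q ^ n :=
    summable_pow_mul_geometric_of_norm_lt_one D (by rwa [Real.norm_of_nonneg hq0.le])
  have h2 := (summable_nat_add_iff 1).2 h1
  refine Summable.of_nonneg_of_le (fun l => by positivity) (fun l => ?_)
    (h2.mul_left (Cc * q⁻¹ * (q ^ k)⁻¹))
  have hC : 0 ≤ Cc := by
    have := (abs_nonneg _).trans (hv 0)
    simpa using this
  have h3 : q ^ ee k l ≤ q ^ l * (q ^ k)⁻¹ := by
    rw [le_mul_inv_iff₀ (by positivity), ← pow_add]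
    exact pow_le_pow_of_le_one hq0.le hq1.le (by unfold ee; omega)
  calc |v l| * q ^ ee k l ≤ (Cc * ((l : ℝ) + 1) ^ D) * (q ^ l * (q ^ k)⁻¹) :=
        mul_le_mul (hv l) h3 (by positivity) ((abs_nonneg _).trans (hv l))
    _ = Cc * q⁻¹ * (q ^ k)⁻¹ * (((l + 1 : ℕ) : ℝ) ^ D * q ^ (l + 1)) := by
        push_cast
        rw [pow_succ q l]
        field_simp

/-- The dominant term decides the sign. -/
theorem dominant {k : ℕ} (hk : 1 ≤ k) {a b : ℝ} (ha : (k : ℝ) - 1 < k * a) (ha0 : 0 < a)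
    (hab : a ≤ b) (hb : b * (k + 1) < k) {v : ℕ → ℝ} {D : ℕ} {Cc : ℝ}
    (hv : ∀ l, |v l| ≤ Cc * ((l : ℝ) + 1) ^ D) (hvk : 0 < v k) :
    ∃ N0 : ℕ, ∀ N ≥ N0, ∀ τ : ℝ, a ^ N ≤ τ → τ ≤ b ^ N → ∀ j ≤ N, (∀ l < k, v l = 0 ∨ j = N) →
      ∀ S : ℝ, HasSum (fun l : ℕ => (l : ℝ) ^ j * v l * (-τ) ^ l) S → 0 < (-1) ^ k * S := by
  have hk0 : (0 : ℝ) < k := by exact_mod_cast hk
  have hb0 : 0 < b := ha0.trans_le hab
  set q := max (b * (k + 1) / k) (((k : ℝ) - 1) / (k * a)) with hq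
  have hq0 : 0 < q := lt_max_of_lt_left (by positivity)
  have hq1 : q < 1 := by
    refine max_lt ?_ ?_
    · rw [div_lt_one hk0]; exact hb
    · rw [div_lt_one (by positivity)]; exact ha
  have h1 : b * (k + 1) ≤ q * k := by
    have := le_max_left (b * ((k : ℝ) + 1) / k) (((k : ℝ) - 1) / (k * a))
    rwa [← hq, div_le_iff₀ hk0] at this
  have h2 : (k : ℝ) - 1 ≤ q * a * k := by
    have := le_max_right (b * ((k : ℝ) + 1) / k) (((k : ℝ) - 1) / (k * a))
    rw [← hq, div_le_iff₀ (by positivity)] at this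
    linarith
  have hsum := summable_w hq0 hq1 hv k
  set M := ∑' l, |v l| * q ^ ee k l with hM
  have hlim : Tendsto (fun N : ℕ => q ^ (N - 1) * M) atTop (𝓝 0) := by
    have h3 : Tendsto (fun N : ℕ => q ^ N) atTop (𝓝 0) := tendsto_pow_atTop_nhds_zero_of_lt_one hq0.le hq1
    have h4 := (h3.comp (tendsto_sub_atTop_nat 1)).mul_const M
    simpa using h4
  obtain ⟨N1, hN1⟩ := eventually_atTop.1 (hlim.eventually (gt_mem_nhds hvk))
  refine ⟨max N1 1, fun N hN τ hτa hτb j hj hz S hS => ?_⟩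
  have hNN : N1 ≤ N := (le_max_left _ _).trans hN
  have hN1' : 1 ≤ N := (le_max_right _ _).trans hN
  have hlt := hN1 N hNN
  have hτ0 : 0 < τ := (pow_pos ha0 N).trans_le hτa
  set P := (k : ℝ) ^ j * τ ^ k with hP
  have hP0 : 0 < P := by positivity
  -- the remainder
  have h5 : HasSum (fun l : ℕ => (l : ℝ) ^ j * v l * (-τ) ^ l -
      if l = k then (k : ℝ) ^ j * v k * (-τ) ^ k else 0) (S - (k : ℝ) ^ j * v k * (-τ) ^ k) :=
    hS.sub (hasSum_ite_eq k _)
  have h6 : HasSum (fun l => P * q ^ (N - 1) * (|v l| * q ^ ee k l)) (P * q ^ (N - 1) * M) :=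
    hsum.hasSum.mul_left _
  have h7 : ‖S - (k : ℝ) ^ j * v k * (-τ) ^ k‖ ≤ P * q ^ (N - 1) * M := by
    rw [← h5.tsum_eq]
    refine tsum_of_norm_bounded h6 fun l => ?_
    split_ifs with hlk
    · subst hlk
      rw [sub_self, norm_zero]
      positivity
    · rw [sub_zero, norm_mul, norm_mul, norm_pow, norm_pow, norm_neg, Real.norm_of_nonneg hτ0.le,
        Real.norm_of_nonneg (Nat.cast_nonneg l), Real.norm_eq_abs]
      by_cases hvl : v l = 0
      · rw [hvl, abs_zero]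
        simp
      have hlj : l < k → j = N := fun h => (hz l h).resolve_left hvl
      have h8 := term_le hk ha0 hb0.le hq0 hq1.le h1 h2 hN1' hτa hτb hj hlk hlj
      calc (l : ℝ) ^ j * |v l| * τ ^ l = ((l : ℝ) ^ j * τ ^ l) * |v l| := by ring
        _ ≤ ((k : ℝ) ^ j * τ ^ k * (q ^ (N - 1) * q ^ ee k l)) * |v l| :=
            mul_le_mul_of_nonneg_right h8 (abs_nonneg _)
        _ = _ := by rw [hP]; ring
  rw [Real.norm_eq_abs] at h7
  have h8 : (-1 : ℝ) ^ k * ((k : ℝ) ^ j * v k * (-τ) ^ k) = P * v k := by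
    rw [hP, neg_pow τ k]
    have : (-1 : ℝ) ^ k * (-1) ^ k = 1 := by rw [← mul_pow]; norm_num
    linear_combination ((k : ℝ) ^ j * v k * τ ^ k) * this
  have h9 : |(-1 : ℝ) ^ k * (S - (k : ℝ) ^ j * v k * (-τ) ^ k)| ≤ P * q ^ (N - 1) * M := by
    rw [abs_mul, abs_pow, abs_neg, abs_one, one_pow, one_mul]
    exact h7
  have h10 := (abs_le.1 h9).1
  have h11 : (-1 : ℝ) ^ k * S = P * v k + (-1 : ℝ) ^ k * (S - (k : ℝ) ^ j * v k * (-τ) ^ k) := by
    rw [← h8]; ring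
  rw [h11]
  have h12 : P * (q ^ (N - 1) * M) < P * v k := mul_lt_mul_of_pos_left hlt hP0
  linarith

end Q195.ZG
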