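import Pool.Agent.Q195.ZG.Main

set_option autoImplicit false

/-!
# All zeros of the numerator are real and nonpositive
-/

open Polynomial Filter Topology

namespace Q195.ZG

/-- A polynomial of degree at most `L + 1` vanishing at `0` whose values alternate `L` times on the
negative half line has only real nonpositive zeros. -/
theorem real_of_alt {P : ℝ[X]} {L : ℕ} (hP : P ≠ 0) (hd : P.natDegree ≤ L + 1) (h0 : P.eval 0 = 0)
    {x : ℕ → ℝ} (hpos : ∀ i ≤ L, 0 < x i) (hx : ∀ i < L, x i < x (i + 1))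
    (hs : ∀ i ≤ L, 0 < (-1) ^ (i + 1) * P.eval (-x i)) :
    ∀ z : ℂ, aeval z P = 0 → z.im = 0 ∧ z.re ≤ 0 := by
  classical
  have hz : ∀ i < L, ∃ y, x i < y ∧ y < x (i + 1) ∧ P.eval (-y) = 0 := by
    intro i hi
    have hcont : ContinuousOn (fun y => (-1) ^ (i + 1) * P.eval (-y)) (Set.Icc (x i) (x (i + 1))) := by
      have : Continuous fun y : ℝ => (-1) ^ (i + 1) * P.eval (-y) :=
        continuous_const.mul (P.continuous.comp continuous_neg)
      exact this.continuousOn
    have h1 := hs i hi.le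
    have h2 := hs (i + 1) hi
    have h3 : (-1) ^ (i + 1) * P.eval (-x (i + 1)) < 0 := by
      rw [pow_succ] at h2
      linarith
    have := intermediate_value_Ioo' (hx i hi).le hcont
    obtain ⟨y, hy, hy0⟩ := this ⟨h3, h1⟩
    refine ⟨y, hy.1, hy.2, ?_⟩
    have h4 : ((-1 : ℝ)) ^ (i + 1) ≠ 0 := pow_ne_zero _ (by norm_num)
    exact (mul_eq_zero.1 hy0).resolve_left h4
  choose! y hy1 hy2 hy3 using hz
  have hypos : ∀ i < L, 0 < y i := fun i hi => (hpos i hi.le).trans (hy1 i hi)
  have hymono : ∀ i < L, ∀ j < L, i < j → y i < y j := by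
    intro i hi j hj hij
    have h1 : x (i + 1) ≤ x j := by
      rcases Nat.lt_or_ge (i + 1) j with h | h
      · exact (lt_of_steps hx h hj.le).le
      · have : i + 1 = j := by omega
        rw [this]
    exact (hy2 i hi).trans_le (h1.trans (hy1 j hj).le)
  intro z hzP
  set S : Finset ℝ := insert 0 ((Finset.range L).image fun i => -y i) with hS
  have hcard : S.card = L + 1 := by
    rw [hS, Finset.card_insert_of_notMem, Finset.card_image_of_injOn, Finset.card_range]
    · intro i hi j hj hij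
      simp only [Finset.coe_range, Set.mem_Iio] at hi hj
      by_contra hne
      rcases lt_or_gt_of_ne hne with h | h
      · have := hymono i hi j hj h
        simp only [neg_inj] at hij
        linarith
      · have := hymono j hj i hi h
        simp only [neg_inj] at hij
        linarith
    · intro h
      rw [Finset.mem_image] at h
      obtain ⟨i, hi, e⟩ := h
      rw [Finset.mem_range] at hi
      have := hypos i hi
      linarith
  have hSroot : ∀ s ∈ S, P.eval s = 0 ∧ s ≤ 0 := by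
    intro s hs
    rw [hS, Finset.mem_insert, Finset.mem_image] at hs
    rcases hs with rfl | ⟨i, hi, rfl⟩
    · exact ⟨h0, le_rfl⟩
    · rw [Finset.mem_range] at hi
      exact ⟨hy3 i hi, by linarith [hypos i hi]⟩
  by_contra hcon
  set T : Finset ℂ := insert z (S.image fun s : ℝ => (s : ℂ)) with hT
  have hzS : z ∉ S.image fun s : ℝ => (s : ℂ) := by
    intro h
    rw [Finset.mem_image] at h
    obtain ⟨s, hs, rfl⟩ := h
    exact hcon ⟨Complex.ofReal_im s, by rw [Complex.ofReal_re]; exact (hSroot s hs).2⟩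
  have hTcard : T.card = L + 2 := by
    rw [hT, Finset.card_insert_of_notMem hzS,
      Finset.card_image_of_injective _ Complex.ofReal_injective, hcard]
  have hmap : P.map (algebraMap ℝ ℂ) ≠ 0 := by
    rw [Ne, Polynomial.map_eq_zero]
    exact hP
  have hsub : T.val ⊆ (P.map (algebraMap ℝ ℂ)).roots := by
    intro w hw
    rw [Finset.mem_val, hT, Finset.mem_insert, Finset.mem_image] at hw
    rw [mem_roots hmap, IsRoot, eval_map_algebraMap]
    rcases hw with rfl | ⟨s, hs, rfl⟩
    · exact hzP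
    · have h1 := Polynomial.aeval_algebraMap_apply ℂ s P
      have h2 : aeval ((s : ℝ) : ℂ) P = ((P.eval s : ℝ) : ℂ) := by simpa using h1
      rw [h2, (hSroot s hs).1]
      simp
  have h1 := Polynomial.card_le_degree_of_subset_roots hsub
  rw [hTcard, natDegree_map] at h1
  omega

/-- The bases. -/
noncomputable def ba (k : ℕ) : ℝ := (2 * k - 1) / (2 * k + 1)

theorem ba_pos {k : ℕ} (hk : 1 ≤ k) : 0 < ba k := by
  have : (1 : ℝ) ≤ k := by exact_mod_cast hk
  unfold ba
  apply div_pos <;> linarith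

theorem ba_lt {k : ℕ} : ba k < ba (k + 1) := by
  have : (0 : ℝ) ≤ k := Nat.cast_nonneg k
  unfold ba
  push_cast
  rw [div_lt_div_iff₀ (by linarith) (by linarith)]
  nlinarith

theorem ba_low {k : ℕ} (hk : 1 ≤ k) : (k : ℝ) - 1 < k * ba k := by
  have : (1 : ℝ) ≤ k := by exact_mod_cast hk
  unfold ba
  rw [mul_div_assoc', lt_div_iff₀ (by linarith)]
  nlinarith

theorem ba_high {k : ℕ} (hk : 1 ≤ k) : ba k * (k + 1) < k := by
  have : (1 : ℝ) ≤ k := by exact_mod_cast hk
  unfold ba
  rw [div_mul_eq_mul_div, div_lt_iff₀ (by linarith)]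
  nlinarith

/-- The upper end for `K`. -/
noncomputable def bb (k : ℕ) : ℝ := (4 * k - 1) / (4 * k + 3)

theorem ba_lt_bb {k : ℕ} (hk : 1 ≤ k) : ba k < bb k := by
  have : (1 : ℝ) ≤ k := by exact_mod_cast hk
  unfold ba bb
  rw [div_lt_div_iff₀ (by linarith) (by linarith)]
  nlinarith

theorem bb_high {k : ℕ} (hk : 1 ≤ k) : bb k * (k + 1) < k := by
  have : (1 : ℝ) ≤ k := by exact_mod_cast hk
  unfold bb
  rw [div_mul_eq_mul_div, div_lt_iff₀ (by linarith)]
  nlinarith

theorem exists_generic {u v : ℝ} (h0 : 0 ≤ u) (huv : u < v) (N : ℕ) :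
    ∃ p, u < p ∧ p < v ∧ ∀ j ≤ N, r j p ≠ 0 := by
  classical
  set Z : Finset ℝ := (Finset.range (N + 1)).biUnion fun j => (E j).roots.toFinset.image fun x => -x with hZ
  obtain ⟨p, hp, hpZ⟩ := (Set.Ioo_infinite huv).exists_notMem_finset Z
  refine ⟨p, hp.1, hp.2, fun j hj h => hpZ ?_⟩
  rw [hZ, Finset.mem_biUnion]
  refine ⟨j, Finset.mem_range.2 (by omega), ?_⟩
  rw [Finset.mem_image]
  refine ⟨-p, ?_, neg_neg p⟩
  rw [Multiset.mem_toFinset, mem_roots (E_ne_zero j), IsRoot]
  unfold r g at h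
  have hp0 : 0 < p := h0.trans_lt hp.1
  have h1 : ((1 - -p)⁻¹) ^ (j + 1) ≠ 0 := pow_ne_zero _ (inv_ne_zero (by linarith))
  exact (mul_eq_zero.1 h).resolve_right h1

theorem main (m : ℕ) : ∃ N : ℕ, 1 ≤ N ∧
    ∀ z : ℂ, aeval z (W ((m : ℝ) + 1 / 2) N) = 0 → z.im = 0 ∧ z.re ≤ 0 := by
  set c : ℝ := (m : ℝ) + 1 / 2 with hc
  have hc0 : 0 < c := by positivity
  set K := m + 1 with hK
  have hK1 : 1 ≤ K := by omega
  have hcK : c < K := by rw [hc, hK]; push_cast; linarith
  have hcne : ∀ k : ℕ, (k : ℝ) - c ≠ 0 := by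
    intro k h
    have h1 : (2 * k : ℝ) = 2 * m + 1 := by linarith
    have h2 : 2 * k = 2 * m + 1 := by exact_mod_cast h1
    omega
  -- bounds of the weights
  have hv2 : ∀ l : ℕ, |((l : ℝ) - c) ^ 2| ≤ (1 + c) ^ 2 * ((l : ℝ) + 1) ^ 2 := by
    intro l
    have : (0 : ℝ) ≤ l := Nat.cast_nonneg l
    rw [abs_of_nonneg (sq_nonneg _), ← mul_pow]
    have h1 : |(l : ℝ) - c| ≤ (1 + c) * ((l : ℝ) + 1) := by
      rw [abs_le]
      constructor <;> nlinarith
    rw [← sq_abs]
    exact pow_le_pow_left₀ (abs_nonneg _) h1 2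
  have hv1 : ∀ l : ℕ, |((l : ℝ) - c)| ≤ (1 + c) * ((l : ℝ) + 1) ^ 1 := by
    intro l
    have : (0 : ℝ) ≤ l := Nat.cast_nonneg l
    rw [pow_one, abs_le]
    constructor <;> nlinarith
  have hv0 : ∀ l : ℕ, |(1 : ℝ)| ≤ 1 * ((l : ℝ) + 1) ^ 0 := by
    intro l
    simp
  have hk2 : ∀ k : ℕ, 0 < ((k : ℝ) - c) ^ 2 := fun k => by
    have := hcne k
    positivity
  have h2 : ∀ k, 1 ≤ k → ∃ N0 : ℕ, ∀ N ≥ N0, 0 < (-1) ^ k * F c N (ba k ^ N) := by
    intro k hk
    obtain ⟨N0, hN0⟩ := dominant hk (ba_low hk) (ba_pos hk) le_rfl (ba_high hk) hv2 (hk2 k)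
    refine ⟨max N0 1, fun N hN => ?_⟩
    have hb1 : ba k < 1 := by
      have h1 := ba_high hk
      have h3 := ba_pos hk
      have h4 : (1 : ℝ) ≤ k := by exact_mod_cast hk
      nlinarith
    have hN1 : N ≠ 0 := by have := (le_max_right N0 1).trans hN; omega
    exact hN0 N ((le_max_left _ _).trans hN) (ba k ^ N) le_rfl le_rfl N le_rfl (fun _ _ => Or.inr rfl) _
      (hasSum_comb c N (pow_pos (ba_pos hk) N) (pow_lt_one₀ (ba_pos hk).le hb1 hN1))
  choose! Nf hNf using h2
  obtain ⟨N1, hN1⟩ := dominant hK1 (ba_low hK1) (ba_pos hK1) (ba_lt_bb hK1).le (bb_high hK1)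
    (v := fun _ => 1) hv0 one_pos
  obtain ⟨N2, hN2⟩ := dominant hK1 (ba_low hK1) (ba_pos hK1) (ba_lt_bb hK1).le (bb_high hK1)
    (v := fun l => (l : ℝ) - c) hv1 (by linarith)
  obtain ⟨N3, hN3⟩ := dominant hK1 (ba_low hK1) (ba_pos hK1) (ba_lt_bb hK1).le (bb_high hK1) hv2 (hk2 K)
  obtain ⟨N4, hN4⟩ := dominant hK1 (ba_low hK1) (ba_pos hK1) (ba_lt_bb hK1).le (bb_high hK1)
    (dw_le K) (dw_pos K)
  set N := (Finset.range (K + 1)).sup Nf + N1 + N2 + N3 + N4 + K + 1 with hN
  have hNf' : ∀ k ≤ K, Nf k ≤ N := by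
    intro k hk
    have := Finset.le_sup (f := Nf) (Finset.mem_range.2 (show k < K + 1 by omega))
    omega
  refine ⟨N, by omega, ?_⟩
  have hbb1 : bb K < 1 := by
    have h1 := bb_high hK1
    have h3 := (ba_pos hK1).trans (ba_lt_bb hK1)
    have h4 : (1 : ℝ) ≤ K := by exact_mod_cast hK1
    nlinarith
  have hbb0 : 0 < bb K := (ba_pos hK1).trans (ba_lt_bb hK1)
  have hlt : ba K ^ N < bb K ^ N := pow_lt_pow_left₀ (ba_lt_bb hK1) (ba_pos hK1).le (by omega)
  obtain ⟨p, hp1, hp2, hne⟩ := exists_generic (pow_pos (ba_pos hK1) N).le hlt N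
  have hp : 0 < p := (pow_pos (ba_pos hK1) N).trans hp1
  have hp1' : p < 1 := hp2.trans (pow_lt_one₀ hbb0.le hbb1 (by omega))
  -- signs at `p`
  have s1 : 0 < (-1) ^ K * r N p := by
    refine hN1 N (by omega) p hp1.le hp2.le N le_rfl (fun _ _ => Or.inr rfl) _ ?_
    have := hasSum_g N (show |(-p)| < 1 by rw [abs_neg, abs_of_pos hp]; exact hp1')
    simpa [r] using this
  have s2 : 0 < (-1) ^ K * F1 c N p :=
    hN2 N (by omega) p hp1.le hp2.le N le_rfl (fun _ _ => Or.inr rfl) _ (hasSum_comb1 c N hp hp1')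
  have s3 : 0 < (-1) ^ K * F c N p :=
    hN3 N (by omega) p hp1.le hp2.le N le_rfl (fun _ _ => Or.inr rfl) _ (hasSum_comb c N hp hp1')
  have s4 : ∀ j ≤ N, 0 < (-1) ^ K * yy p K j := fun j hj =>
    hN4 N (by omega) p hp1.le hp2.le j hj (fun l hl => Or.inl (dw_zero hl)) _ (hasSum_yy hp hp1' K j)
  have hsq : (-1 : ℝ) ^ K * (-1) ^ K = 1 := by rw [← mul_pow]; norm_num
  set M := ((Finset.range N).filter fun i => 0 < r i p * r (i + 1) p).card with hM
  have hMN : N ≤ M + K := few_changes (by omega) hne s4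
  have a0 : Alt (r N) p M := alt_r hp hne N le_rfl
  -- first factor
  have hF1 : ∀ x, 0 < x → (fun x => x * (r (N + 1) x / x) - c * r N x) x = F1 c N x := by
    intro x hx
    unfold F1
    simp only
    rw [mul_div_cancel₀ _ hx.ne']
  have a1 : Alt (F1 c N) p (M + 1) := by
    have h1 := anchored (f := r N) (f' := fun x => r (N + 1) x / x) (c := c) (p := p) hc0.le hp
      (fun x hx => r_hasDerivAt N hx) (r_tendsto N) a0 (by
        have := hF1 p hp
        beta_reduce at this
        rw [this]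
        intro h
        rw [h, mul_zero] at s2
        exact lt_irrefl _ s2)
    have h2 : 0 < r N p * (p * (r (N + 1) p / p) - c * r N p) := by
      have e := hF1 p hp
      beta_reduce at e
      rw [e]
      have := mul_pos s1 s2
      have e2 : (-1) ^ K * r N p * ((-1) ^ K * F1 c N p) = ((-1) ^ K * (-1) ^ K) * (r N p * F1 c N p) := by ring
      rw [e2, hsq, one_mul] at this
      exact this
    rw [if_pos h2] at h1
    exact h1.congr hp hF1
  -- second factor
  have hdF1 : ∀ x, 0 < x → HasDerivAt (F1 c N) ((r (N + 2) x - c * r (N + 1) x) / x) x := by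
    intro x hx
    have h1 := (r_hasDerivAt (N + 1) hx).sub ((r_hasDerivAt N hx).const_mul c)
    refine h1.congr_deriv ?_
    ring
  have hF : ∀ x, 0 < x → (fun x => x * ((r (N + 2) x - c * r (N + 1) x) / x) - c * F1 c N x) x = F c N x := by
    intro x hx
    unfold F1 F
    simp only
    rw [mul_div_cancel₀ _ hx.ne']
    ring
  have a2 : Alt (F c N) p (M + 2) := by
    have h1 := anchored (f := F1 c N) (f' := fun x => (r (N + 2) x - c * r (N + 1) x) / x) (c := c) (p := p)
      hc0.le hp hdF1 (by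
        have := (r_tendsto (N + 1)).sub ((r_tendsto N).const_mul c)
        rw [mul_zero, sub_zero] at this
        exact this) a1 (by
        have := hF p hp
        beta_reduce at this
        rw [this]
        intro h
        rw [h, mul_zero] at s3
        exact lt_irrefl _ s3)
    have h2 : 0 < F1 c N p * (p * ((r (N + 2) p - c * r (N + 1) p) / p) - c * F1 c N p) := by
      have e := hF p hp
      beta_reduce at e
      rw [e]
      have := mul_pos s2 s3
      have e2 : (-1) ^ K * F1 c N p * ((-1) ^ K * F c N p) = ((-1) ^ K * (-1) ^ K) * (F1 c N p * F c N p) := by ring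
      rw [e2, hsq, one_mul] at this
      exact this
    rw [if_pos h2] at h1
    exact h1.congr hp hF
  obtain ⟨x, hx0, hx, hxs⟩ := a2
  have hxpos : ∀ i ≤ M + 2, p ≤ x i := by
    intro i hi
    rcases Nat.eq_zero_or_pos i with h1 | h1
    · rw [h1, hx0]
    · rw [← hx0]; exact (lt_of_steps hx h1 hi).le
  -- all the points
  set Y : ℕ → ℝ := fun i => if i < m then ba (i + 1) ^ N else x (i - m) with hY
  have hYpos : ∀ i ≤ N + 1, 0 < Y i := by
    intro i hi
    rw [hY]
    beta_reduce
    split_ifs with h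
    · exact pow_pos (ba_pos (by omega)) N
    · exact hp.trans_le (hxpos _ (by omega))
  have hYF : ∀ i ≤ N + 1, 0 < (-1) ^ (i + 1) * F c N (Y i) := by
    intro i hi
    rw [hY]
    beta_reduce
    split_ifs with h
    · exact hNf (i + 1) (by omega) N (hNf' (i + 1) (by omega))
    · have h1 := hxs (i - m) (by omega)
      have h2 := mul_pos h1 s3
      have hFp : 0 < F c N p * F c N p := by
        have := mul_pos s3 s3
        have e : (-1) ^ K * F c N p * ((-1) ^ K * F c N p) = ((-1) ^ K * (-1) ^ K) * (F c N p * F c N p) := by ring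
        rw [e, hsq, one_mul] at this
        exact this
      have e : (-1) ^ (i - m) * F c N p * F c N (x (i - m)) * ((-1) ^ K * F c N p) =
        (F c N p * F c N p) * ((-1) ^ ((i - m) + K) * F c N (x (i - m))) := by rw [pow_add]; ring
      rw [e, show i - m + K = i + 1 by omega] at h2
      exact (mul_pos_iff_of_pos_left hFp).1 h2
  have hYstep : ∀ i < N + 1, Y i < Y (i + 1) := by
    intro i hi
    rw [hY]
    beta_reduce
    rcases lt_trichotomy (i + 1) m with h | h | h
    · rw [if_pos (by omega), if_pos h]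
      exact pow_lt_pow_left₀ ba_lt (ba_pos (by omega)).le (by omega)
    · rw [if_pos (by omega), if_neg (by omega), h, Nat.sub_self, hx0]
      refine lt_trans ?_ hp1
      rw [hK]
      exact pow_lt_pow_left₀ ba_lt (ba_pos (by omega)).le (by omega)
    · rw [if_neg (by omega), if_neg (by omega)]
      have := hx (i - m) (by omega)
      rwa [show i - m + 1 = i + 1 - m by omega] at this
  refine real_of_alt (P := W c N) (L := N + 1) ?_ (W_natDegree_le c N) (W_eval_zero c (by omega)) hYpos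
    hYstep ?_
  · intro h
    have h1 := W_eval_one c N
    rw [h, eval_zero] at h1
    have h2 : (0 : ℝ) < (N + 2).factorial := by exact_mod_cast (N + 2).factorial_pos
    linarith
  · intro i hi
    have h1 := hYF i hi
    rw [F_eq c N (hYpos i hi), ← mul_assoc] at h1
    have h2 : 0 < ((1 + Y i)⁻¹) ^ (N + 3) := by
      have := hYpos i hi
      positivity
    exact (mul_pos_iff_of_pos_right h2).1 h1

end Q195.ZG
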