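import Mathlib

set_option autoImplicit false

/-!
# The polynomials `E_j` with `∑ k^j t^k = E_j(t) / (1 - t)^(j+1)`
-/

open Polynomial Filter Topology

namespace Q195.ZG

/-- The Eulerian polynomials. -/
noncomputable def E : ℕ → ℝ[X]
  | 0 => 1
  | j + 1 => X * ((1 - X) * derivative (E j) + C ((j : ℝ) + 1) * E j)

theorem E_natDegree_le : ∀ j : ℕ, (E j).natDegree ≤ j := by
  intro j
  induction j with
  | zero => simp [E]
  | succ j ih =>
    rw [E]
    refine (natDegree_mul_le).trans ?_
    have h1 : ((1 - X) * derivative (E j) + C ((j : ℝ) + 1) * E j : ℝ[X]).natDegree ≤ j := by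
      refine natDegree_add_le_of_degree_le ?_ ?_
      · rcases Nat.eq_zero_or_pos j with h | h
        · subst h
          simp [E]
        · refine (natDegree_mul_le).trans ?_
          have h2 : (1 - X : ℝ[X]).natDegree ≤ 1 := by
            refine (natDegree_sub_le _ _).trans ?_
            simp
          have h3 := natDegree_derivative_le (E j)
          omega
      · refine (natDegree_C_mul_le _ _).trans ih
    rw [natDegree_X]
    omega

theorem E_eval_one : ∀ j : ℕ, (E j).eval 1 = (j.factorial : ℝ) := by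
  intro j
  induction j with
  | zero => simp [E]
  | succ j ih =>
    rw [E, eval_mul, eval_add, eval_mul, eval_mul, ih, Nat.factorial_succ]
    simp

theorem E_ne_zero (j : ℕ) : E j ≠ 0 := by
  intro h
  have := E_eval_one j
  rw [h, eval_zero] at this
  have h2 : (0 : ℝ) < j.factorial := by exact_mod_cast j.factorial_pos
  linarith

/-- The power series of `k^j`. -/
noncomputable def A (j : ℕ) : PowerSeries ℝ := PowerSeries.mk fun k => (k : ℝ) ^ j

theorem A_succ (j : ℕ) : A (j + 1) = PowerSeries.X * PowerSeries.derivative ℝ (A j) := by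
  ext k
  rcases k with _ | k
  · simp [A]
  · rw [PowerSeries.coeff_succ_X_mul, PowerSeries.coeff_derivative]
    simp only [A, PowerSeries.coeff_mk]
    push_cast
    ring

/-- The geometric series. -/
noncomputable def G : PowerSeries ℝ := PowerSeries.mk fun _ => 1

theorem G_mul : G * (1 - PowerSeries.X) = 1 := by
  have := PowerSeries.mk_one_mul_one_sub_eq_one ℝ
  exact this

theorem A_zero : A 0 = G := by
  ext k
  simp [A, G]

theorem one_sub_mul_A : ∀ j : ℕ, (1 - PowerSeries.X) ^ (j + 1) * A j = (E j : PowerSeries ℝ) := by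
  intro j
  induction j with
  | zero =>
    rw [A_zero, zero_add, pow_one, mul_comm, G_mul, E]
    simp
  | succ j ih =>
    have h1 := congrArg (PowerSeries.derivative ℝ) ih
    rw [Derivation.leibniz, PowerSeries.derivative_pow, PowerSeries.derivative_coe, map_sub,
      PowerSeries.derivative_one, PowerSeries.derivative_X] at h1
    simp only [smul_eq_mul] at h1
    rw [A_succ, E]
    push_cast
    rw [← ih, ← h1]
    have e : (PowerSeries.C ((j : ℝ) + 1) : PowerSeries ℝ) = ((j : PowerSeries ℝ) + 1) := by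
      simp
    rw [e, Nat.add_sub_cancel]
    push_cast
    ring

theorem A_eq (j : ℕ) : A j = (E j : PowerSeries ℝ) * G ^ (j + 1) := by
  rw [← one_sub_mul_A]
  calc A j = (G * (1 - PowerSeries.X)) ^ (j + 1) * A j := by rw [G_mul, one_pow, one_mul]
    _ = _ := by rw [mul_pow]; ring

/-! ### Values -/

/-- The power series `a` converges absolutely at `t`, with sum `s`. -/
def Ev (a : PowerSeries ℝ) (t s : ℝ) : Prop :=
  Summable (fun k => ‖PowerSeries.coeff k a * t ^ k‖) ∧
    HasSum (fun k => PowerSeries.coeff k a * t ^ k) s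

theorem Ev.mul {a b : PowerSeries ℝ} {t x y : ℝ} (ha : Ev a t x) (hb : Ev b t y) :
    Ev (a * b) t (x * y) := by
  have e : ∀ n, PowerSeries.coeff n (a * b) * t ^ n = ∑ kl ∈ Finset.HasAntidiagonal.antidiagonal n,
      (PowerSeries.coeff kl.1 a * t ^ kl.1) * (PowerSeries.coeff kl.2 b * t ^ kl.2) := by
    intro n
    rw [PowerSeries.coeff_mul, Finset.sum_mul]
    refine Finset.sum_congr rfl fun kl hkl => ?_
    rw [Finset.HasAntidiagonal.mem_antidiagonal] at hkl
    rw [← hkl, pow_add]
    ring
  have h1 := summable_norm_sum_mul_antidiagonal_of_summable_norm ha.1 hb.1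
  have h2 := tsum_mul_tsum_eq_tsum_sum_antidiagonal_of_summable_norm ha.1 hb.1
  refine ⟨?_, ?_⟩
  · simp_rw [e]
    exact h1
  · simp_rw [e]
    rw [ha.2.tsum_eq, hb.2.tsum_eq] at h2
    rw [h2]
    exact (Summable.of_norm h1).hasSum

theorem Ev_poly (P : ℝ[X]) (t : ℝ) : Ev (P : PowerSeries ℝ) t (P.eval t) := by
  have h : ∀ k ∉ Finset.range (P.natDegree + 1), PowerSeries.coeff k (P : PowerSeries ℝ) * t ^ k = 0 := by
    intro k hk
    rw [Finset.mem_range] at hk
    rw [Polynomial.coeff_coe, Polynomial.coeff_eq_zero_of_natDegree_lt (by omega), zero_mul]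
  refine ⟨summable_of_ne_finset_zero (s := Finset.range (P.natDegree + 1)) fun k hk => by
    rw [h k hk, norm_zero], ?_⟩
  rw [Polynomial.eval_eq_sum_range]
  have : HasSum (fun k => PowerSeries.coeff k (P : PowerSeries ℝ) * t ^ k)
      (∑ k ∈ Finset.range (P.natDegree + 1), PowerSeries.coeff k (P : PowerSeries ℝ) * t ^ k) :=
    hasSum_sum_of_ne_finset_zero h
  simpa [Polynomial.coeff_coe] using this

theorem Ev_G {t : ℝ} (ht : |t| < 1) : Ev G t (1 - t)⁻¹ := by
  unfold Ev G
  simp only [PowerSeries.coeff_mk, one_mul]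
  exact ⟨by simpa [norm_pow] using summable_geometric_of_lt_one (abs_nonneg t) ht,
    hasSum_geometric_of_abs_lt_one ht⟩

theorem Ev.pow {a : PowerSeries ℝ} {t x : ℝ} (ha : Ev a t x) : ∀ n : ℕ, Ev (a ^ n) t (x ^ n) := by
  intro n
  induction n with
  | zero =>
    have := Ev_poly 1 t
    simpa using this
  | succ n ih =>
    rw [pow_succ, pow_succ]
    exact ih.mul ha

/-- The rational function `∑ k^j t^k`. -/
noncomputable def g (j : ℕ) (t : ℝ) : ℝ := (E j).eval t * ((1 - t)⁻¹) ^ (j + 1)

theorem Ev_A (j : ℕ) {t : ℝ} (ht : |t| < 1) : Ev (A j) t (g j t) := by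
  rw [A_eq]
  exact (Ev_poly _ t).mul ((Ev_G ht).pow (j + 1))

theorem hasSum_g (j : ℕ) {t : ℝ} (ht : |t| < 1) : HasSum (fun k : ℕ => (k : ℝ) ^ j * t ^ k) (g j t) := by
  have := (Ev_A j ht).2
  simpa [A] using this

/-- The functions on the positive half line. -/
noncomputable def r (j : ℕ) (x : ℝ) : ℝ := g j (-x)

theorem r_hasDerivAt (j : ℕ) {x : ℝ} (hx : 0 < x) : HasDerivAt (r j) (r (j + 1) x / x) x := by
  have h1 : (1 - -x) ≠ 0 := by linarith [hx]
  have h2 : HasDerivAt (fun y : ℝ => -y) (-1) x := (hasDerivAt_id x).neg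
  have h3 : HasDerivAt (fun y : ℝ => (E j).eval (-y)) ((derivative (E j)).eval (-x) * (-1)) x :=
    ((E j).hasDerivAt (-x)).comp x h2
  have h4 : HasDerivAt (fun y : ℝ => (1 - -y)⁻¹) (-1 / (1 - -x) ^ 2) x := by
    have := (h2.const_sub 1).inv h1
    refine this.congr_deriv ?_
    ring
  have h5 := h3.mul (h4.pow (j + 1))
  refine h5.congr_deriv ?_
  unfold r g
  rw [E]
  simp only [eval_mul, eval_add, eval_sub, eval_one, eval_X, eval_C]
  simp only [Nat.add_sub_cancel, Pi.pow_apply]
  push_cast
  have h6 : (1 + x) ≠ 0 := by linarith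
  have h7 : x ≠ 0 := hx.ne'
  simp only [sub_neg_eq_add, inv_pow]
  field_simp
  ring

theorem r_tendsto (j : ℕ) : Tendsto (r j) atTop (𝓝 0) := by
  have h1 : Tendsto (fun x : ℝ => eval x ((E j).comp (-X)) / eval x ((1 + X : ℝ[X]) ^ (j + 1))) atTop (𝓝 0) := by
    refine Polynomial.div_tendsto_atTop_zero_of_degree_lt _ _ ?_
    have hm : ((1 + X : ℝ[X]) ^ (j + 1)).Monic := by
      have : (1 + X : ℝ[X]).Monic := by
        rw [add_comm]
        exact monic_X_add_C (1 : ℝ)
      exact this.pow _
    have hd : ((1 + X : ℝ[X]) ^ (j + 1)).natDegree = j + 1 := by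
      rw [natDegree_pow]
      have : (1 + X : ℝ[X]).natDegree = 1 := by
        rw [add_comm]
        exact natDegree_X_add_C (1 : ℝ)
      rw [this, mul_one]
    rw [degree_eq_natDegree hm.ne_zero, hd]
    refine lt_of_le_of_lt (degree_le_natDegree) ?_
    have h2 : ((E j).comp (-X)).natDegree ≤ j := by
      rw [natDegree_comp, natDegree_neg, natDegree_X, mul_one]
      exact E_natDegree_le j
    exact_mod_cast Nat.lt_succ_of_le h2
  refine h1.congr fun x => ?_
  unfold r g
  rw [eval_comp, eval_pow, eval_add, eval_one, eval_X, eval_neg, eval_X, inv_pow, div_eq_mul_inv]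
  congr 3
  ring

end Q195.ZG
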