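import Pool.Agent.Q195.ZG.Rolle
import Pool.Agent.Q195.ZG.Ser
import Pool.Agent.Q195.ZG.Dom

set_option autoImplicit false

/-!
# Real zeros of the numerator of `∑ k^N (k-c)^2 t^k`
-/

open Polynomial Filter Topology

namespace Q195.ZG

/-- The numerator. -/
noncomputable def W (c : ℝ) (N : ℕ) : ℝ[X] :=
  E (N + 2) - C (2 * c) * ((1 - X) * E (N + 1)) + C (c ^ 2) * ((1 - X) ^ 2 * E N)

theorem W_natDegree_le (c : ℝ) (N : ℕ) : (W c N).natDegree ≤ N + 2 := by
  have h1 : (1 - X : ℝ[X]).natDegree ≤ 1 := by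
    refine (natDegree_sub_le _ _).trans ?_
    simp
  have h2 : ((1 - X : ℝ[X]) ^ 2).natDegree ≤ 2 := by
    refine natDegree_pow_le.trans ?_
    omega
  unfold W
  refine natDegree_add_le_of_degree_le ((natDegree_sub_le_of_le (E_natDegree_le _) ?_).trans
    (max_self (N + 2)).le) ?_
  · refine (natDegree_C_mul_le _ _).trans (natDegree_mul_le.trans ?_)
    have := E_natDegree_le (N + 1)
    omega
  · refine (natDegree_C_mul_le _ _).trans (natDegree_mul_le.trans ?_)
    have := E_natDegree_le N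
    omega

theorem W_eval_one (c : ℝ) (N : ℕ) : (W c N).eval 1 = ((N + 2).factorial : ℝ) := by
  unfold W
  simp [E_eval_one]

theorem E_eval_zero {j : ℕ} (hj : 1 ≤ j) : (E j).eval 0 = 0 := by
  obtain ⟨i, rfl⟩ : ∃ i, j = i + 1 := ⟨j - 1, by omega⟩
  rw [E]
  simp

theorem W_eval_zero (c : ℝ) {N : ℕ} (hN : 1 ≤ N) : (W c N).eval 0 = 0 := by
  unfold W
  simp [E_eval_zero hN, E_eval_zero (show 1 ≤ N + 1 by omega), E_eval_zero (show 1 ≤ N + 2 by omega)]

/-- The rational function on the positive half line. -/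
noncomputable def F (c : ℝ) (N : ℕ) (x : ℝ) : ℝ := r (N + 2) x - 2 * c * r (N + 1) x + c ^ 2 * r N x

theorem F_eq (c : ℝ) (N : ℕ) {x : ℝ} (hx : 0 < x) :
    F c N x = (W c N).eval (-x) * ((1 + x)⁻¹) ^ (N + 3) := by
  unfold F W r g
  have h1 : (1 + x) ≠ 0 := by linarith
  simp only [eval_add, eval_sub, eval_mul, eval_pow, eval_C, eval_one, eval_X, sub_neg_eq_add, inv_pow]
  field_simp
  ring

theorem hasSum_comb (c : ℝ) (N : ℕ) {x : ℝ} (hx : 0 < x) (hx1 : x < 1) :
    HasSum (fun l : ℕ => (l : ℝ) ^ N * ((l : ℝ) - c) ^ 2 * (-x) ^ l) (F c N x) := by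
  have ht : |(-x)| < 1 := by rw [abs_neg, abs_of_pos hx]; exact hx1
  have h := ((hasSum_g (N + 2) ht).sub ((hasSum_g (N + 1) ht).mul_left (2 * c))).add
    ((hasSum_g N ht).mul_left (c ^ 2))
  have e : (fun l : ℕ => (l : ℝ) ^ N * ((l : ℝ) - c) ^ 2 * (-x) ^ l) =
      fun l : ℕ => (l : ℝ) ^ (N + 2) * (-x) ^ l - 2 * c * ((l : ℝ) ^ (N + 1) * (-x) ^ l) +
        c ^ 2 * ((l : ℝ) ^ N * (-x) ^ l) := by
    funext l
    ring
  rw [e]
  exact h

/-- The intermediate function. -/
noncomputable def F1 (c : ℝ) (N : ℕ) (x : ℝ) : ℝ := r (N + 1) x - c * r N x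

theorem hasSum_comb1 (c : ℝ) (N : ℕ) {x : ℝ} (hx : 0 < x) (hx1 : x < 1) :
    HasSum (fun l : ℕ => (l : ℝ) ^ N * ((l : ℝ) - c) * (-x) ^ l) (F1 c N x) := by
  have ht : |(-x)| < 1 := by rw [abs_neg, abs_of_pos hx]; exact hx1
  have h := (hasSum_g (N + 1) ht).sub ((hasSum_g N ht).mul_left c)
  have e : (fun l : ℕ => (l : ℝ) ^ N * ((l : ℝ) - c) * (-x) ^ l) =
      fun l : ℕ => (l : ℝ) ^ (N + 1) * (-x) ^ l - c * ((l : ℝ) ^ N * (-x) ^ l) := by
    funext l
    ring
  rw [e]
  exact h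

theorem Alt.congr {f g : ℝ → ℝ} {p : ℝ} {m : ℕ} (hp : 0 < p) (h : Alt f p m)
    (hfg : ∀ x, 0 < x → f x = g x) : Alt g p m := by
  obtain ⟨x, hx0, hx, hs⟩ := h
  refine ⟨x, hx0, hx, fun i hi => ?_⟩
  have hxi : 0 < x i := by
    rcases Nat.eq_zero_or_pos i with h1 | h1
    · rw [h1, hx0]; exact hp
    · have := lt_of_steps hx h1 hi
      rw [hx0] at this
      exact hp.trans this
  rw [← hfg p hp, ← hfg _ hxi]
  exact hs i hi

theorem Alt.mono {f : ℝ → ℝ} {p : ℝ} {m m' : ℕ} (h : Alt f p m) (hm : m' ≤ m) : Alt f p m' := by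
  obtain ⟨x, hx0, hx, hs⟩ := h
  exact ⟨x, hx0, fun i hi => hx i (by omega), fun i hi => hs i (by omega)⟩

theorem alt_r {p : ℝ} (hp : 0 < p) {N : ℕ} (hne : ∀ j ≤ N, r j p ≠ 0) : ∀ j ≤ N,
    Alt (r j) p ((Finset.range j).filter fun i => 0 < r i p * r (i + 1) p).card := by
  intro j
  induction j with
  | zero =>
    intro _
    refine ⟨fun _ => p, rfl, by simp, ?_⟩
    intro i hi
    simp only [Finset.range_zero, Finset.filter_empty, Finset.card_empty, Nat.le_zero] at hi
    subst hi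
    simpa using mul_self_pos.2 (hne 0 (Nat.zero_le N))
  | succ j ih =>
    intro hj
    have h1 := ih (by omega)
    have h2 := anchored (f := r j) (f' := fun x => r (j + 1) x / x) (c := 0) (p := p) le_rfl hp
      (fun x hx => r_hasDerivAt j hx) (r_tendsto j) h1 (by
        rw [zero_mul, sub_zero, mul_div_cancel₀ _ hp.ne']
        exact hne (j + 1) hj)
    have h3 : ∀ x, 0 < x → (fun x => x * (r (j + 1) x / x) - 0 * r j x) x = r (j + 1) x := by
      intro x hx
      simp only [zero_mul, sub_zero]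
      exact mul_div_cancel₀ _ hx.ne'
    have h4 := h2.congr hp h3
    have h5 : p * (r (j + 1) p / p) - 0 * r j p = r (j + 1) p := h3 p hp
    beta_reduce at h4
    rw [h5] at h4
    rw [Finset.range_add_one, Finset.filter_insert]
    split_ifs with h6
    · rw [if_pos h6] at h4
      rw [Finset.card_insert_of_notMem (by simp)]
      exact h4
    · rw [if_neg h6, add_zero] at h4
      exact h4

/-- The iterated combinations. -/
noncomputable def yy (p : ℝ) : ℕ → ℕ → ℝ
  | 0, j => r j p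
  | i + 1, j => yy p i (j + 1) - i * yy p i j

/-- The weights. -/
noncomputable def dw (i : ℕ) (l : ℕ) : ℝ := ∏ s ∈ Finset.range i, ((l : ℝ) - s)

theorem hasSum_yy {p : ℝ} (hp : 0 < p) (hp1 : p < 1) : ∀ i j : ℕ,
    HasSum (fun l : ℕ => (l : ℝ) ^ j * dw i l * (-p) ^ l) (yy p i j) := by
  have ht : |(-p)| < 1 := by rw [abs_neg, abs_of_pos hp]; exact hp1
  intro i
  induction i with
  | zero =>
    intro j
    have := hasSum_g j ht
    simpa [dw, yy, r] using this
  | succ i ih =>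
    intro j
    have h := (ih (j + 1)).sub ((ih j).mul_left (i : ℝ))
    have e : (fun l : ℕ => (l : ℝ) ^ j * dw (i + 1) l * (-p) ^ l) =
        fun l : ℕ => (l : ℝ) ^ (j + 1) * dw i l * (-p) ^ l - i * ((l : ℝ) ^ j * dw i l * (-p) ^ l) := by
      funext l
      unfold dw
      rw [Finset.prod_range_succ]
      ring
    rw [e]
    exact h

theorem dw_zero {K l : ℕ} (h : l < K) : dw K l = 0 := by
  unfold dw
  exact Finset.prod_eq_zero (Finset.mem_range.2 h) (sub_self _)

theorem dw_pos (K : ℕ) : 0 < dw K K := by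
  unfold dw
  refine Finset.prod_pos fun s hs => ?_
  rw [Finset.mem_range] at hs
  have : (s : ℝ) < K := by exact_mod_cast hs
  linarith

theorem dw_le (K l : ℕ) : |dw K l| ≤ ((K : ℝ) + 1) ^ K * ((l : ℝ) + 1) ^ K := by
  unfold dw
  rw [Finset.abs_prod, ← mul_pow]
  calc ∏ s ∈ Finset.range K, |((l : ℝ) - s)| ≤ ∏ _s ∈ Finset.range K, (((K : ℝ) + 1) * ((l : ℝ) + 1)) := by
        refine Finset.prod_le_prod (fun s _ => abs_nonneg _) fun s hs => ?_
        rw [Finset.mem_range] at hs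
        have h1 : (s : ℝ) ≤ K := by exact_mod_cast hs.le
        have h2 : (0 : ℝ) ≤ s := Nat.cast_nonneg s
        have h3 : (0 : ℝ) ≤ l := Nat.cast_nonneg l
        rw [abs_le]
        constructor <;> nlinarith
    _ = _ := by rw [Finset.prod_const, Finset.card_range]

theorem altSeq_yy {p : ℝ} {N K : ℕ} (hN : K + 1 ≤ N) (h : AltSeq (yy p 0) N (K + 1)) : ∀ i ≤ K,
    AltSeq (yy p i) (N - i) (K + 1 - i) := by
  intro i
  induction i with
  | zero => intro _; simpa using h
  | succ i ih =>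
    intro hi
    have h1 := ih (by omega)
    rw [show N - i = (N - (i + 1)) + 1 by omega, show K + 1 - i = (K + 1 - (i + 1)) + 1 by omega] at h1
    have h2 := discrete (r := (i : ℝ)) (Nat.cast_nonneg i) h1
    exact h2

theorem few_changes {p : ℝ} {N K : ℕ} (hN : K + 1 ≤ N) (hne : ∀ j ≤ N, r j p ≠ 0)
    (hpos : ∀ j ≤ N, 0 < (-1) ^ K * yy p K j) :
    N ≤ ((Finset.range N).filter fun i => 0 < r i p * r (i + 1) p).card + K := by
  set m := ((Finset.range N).filter fun j => r j p * r (j + 1) p < 0).card with hm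
  have hsplit : ((Finset.range N).filter fun i => 0 < r i p * r (i + 1) p).card + m = N := by
    have h1 := Finset.card_filter_add_card_filter_not (s := Finset.range N)
      (fun i => 0 < r i p * r (i + 1) p)
    have h2 : ((Finset.range N).filter fun i => ¬ 0 < r i p * r (i + 1) p) =
        (Finset.range N).filter fun j => r j p * r (j + 1) p < 0 := by
      refine Finset.filter_congr fun i hi => ?_
      rw [Finset.mem_range] at hi
      have h3 : r i p * r (i + 1) p ≠ 0 := mul_ne_zero (hne i hi.le) (hne (i + 1) hi)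
      rw [not_lt]
      exact ⟨fun h => lt_of_le_of_ne h h3, le_of_lt⟩
    rw [h2, Finset.card_range] at h1
    exact h1
  by_contra hcon
  push Not at hcon
  have hmK : K + 1 ≤ m := by omega
  obtain ⟨t, σ, h1, h2, h3⟩ := altSeq_of_count (y := fun j => r j p) N hne
  rw [← hm] at h1 h2 h3
  have hmono : ∀ d, K + 1 + d ≤ m → t (K + 1) + d ≤ t (K + 1 + d) := by
    intro d
    induction d with
    | zero => intro _; simp
    | succ d ih =>
      intro hd
      have h4 := ih (by omega)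
      have h5 := h1 (K + 1 + d) (by omega)
      have h6 : K + 1 + (d + 1) = K + 1 + d + 1 := by ring
      rw [h6]
      omega
  have hA : AltSeq (yy p 0) N (K + 1) := by
    refine ⟨t, σ, fun i hi => h1 i (by omega), ?_, fun i hi => h3 i (by omega)⟩
    have := hmono (m - (K + 1)) (by omega)
    rw [show K + 1 + (m - (K + 1)) = m by omega, h2] at this
    omega
  obtain ⟨t', σ', g1, g2, g3⟩ := altSeq_yy hN hA K le_rfl
  rw [show K + 1 - K = 1 by omega] at g1 g2 g3
  have g4 := g1 0 (by omega)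
  have g5 := g3 0 (by omega)
  have g6 := g3 1 le_rfl
  have p0 := hpos (t' 0) (by rw [zero_add] at g4; omega)
  have p1 := hpos (t' 1) (by omega)
  rw [pow_zero, one_mul] at g5
  rw [pow_one] at g6
  have q1 := mul_pos g5 p1
  have q2 := mul_pos g6 p0
  have e : σ' * yy p K (t' 0) * ((-1) ^ K * yy p K (t' 1)) =
    -((-1) * σ' * yy p K (t' 1) * ((-1) ^ K * yy p K (t' 0))) := by ring
  rw [e] at q1
  linarith

end Q195.ZG
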