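import Pool.Agent.TH809.TP.Gen
import Pool.Agent.Q195.ZG.Main

set_option autoImplicit false

/-!
# Total positivity
-/

open Polynomial

namespace Q195.ZG

open Pool.Agent.TH809.TP

theorem ones_minor : ∀ (k : ℕ) (r c : Fin k → ℕ), StrictMono r → StrictMono c →
    0 ≤ mnr (fun _ => (1 : ℝ)) r c := by
  intro k
  induction k with
  | zero =>
    intro r c _ _
    simp [mnr]
  | succ k ih =>
    intro r c hr hc
    unfold mnr
    by_cases h1 : c 0 < r 0
    · rw [Matrix.det_eq_zero_of_column_eq_zero 0]
      intro i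
      simp only [Matrix.of_apply]
      unfold ent
      rw [if_neg]
      have := hr.monotone (Fin.zero_le i)
      omega
    · push Not at h1
      by_cases h2 : ∃ i : Fin k, r i.succ ≤ c 0
      · obtain ⟨i, hi⟩ := h2
        rw [Matrix.det_zero_of_row_eq (i := 0) (j := i.succ) (Fin.succ_ne_zero i).symm]
        funext q
        simp only [Matrix.of_apply]
        unfold ent
        have hq := hc.monotone (Fin.zero_le q)
        rw [if_pos (by omega), if_pos (by omega)]
      · push Not at h2
        rw [Matrix.det_succ_column_zero, Fin.sum_univ_succ]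
        have h3 : ∀ i : Fin k, (-1 : ℝ) ^ (i.succ : ℕ) *
            (Matrix.of fun p q => ent (fun _ => (1 : ℝ)) (r p) (c q)) i.succ 0 *
            ((Matrix.of fun p q => ent (fun _ => (1 : ℝ)) (r p) (c q)).submatrix i.succ.succAbove
              Fin.succ).det = 0 := by
          intro i
          simp only [Matrix.of_apply]
          unfold ent
          rw [if_neg (by have := h2 i; omega)]
          ring
        rw [Finset.sum_eq_zero fun i _ => h3 i, add_zero]
        simp only [Matrix.of_apply, Fin.val_zero, pow_zero, one_mul, Fin.succAbove_zero]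
        have h4 : ent (fun _ => (1 : ℝ)) (r 0) (c 0) = 1 := by
          unfold ent
          rw [if_pos h1]
        rw [h4, one_mul]
        exact ih (fun p => r p.succ) (fun q => c q.succ) (hr.comp (Fin.strictMono_succ))
          (hc.comp (Fin.strictMono_succ))

theorem ones_TP (m : ℕ) : TP m fun _ => (1 : ℝ) := fun k _ r c hr hc => ones_minor k r c hr hc

theorem TP_mul_G {m : ℕ} {B : PowerSeries ℝ} (h : TP m fun n => PowerSeries.coeff n B) :
    TP m fun n => PowerSeries.coeff n (B * G) := by
  have h1 := h.conv (ones_TP m)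
  have e : (fun n => PowerSeries.coeff n (B * G)) = conv (fun n => PowerSeries.coeff n B) fun _ => 1 := by
    funext n
    rw [PowerSeries.coeff_mul]
    unfold conv G
    refine Finset.sum_congr rfl fun x _ => ?_
    rw [PowerSeries.coeff_mk]
  rw [e]
  exact h1

theorem TP_mul_G_pow {m : ℕ} {B : PowerSeries ℝ} (h : TP m fun n => PowerSeries.coeff n B) (i : ℕ) :
    TP m fun n => PowerSeries.coeff n (B * G ^ i) := by
  induction i with
  | zero => simpa using h
  | succ i ih =>
    rw [pow_succ, ← mul_assoc]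
    exact TP_mul_G ih

theorem E_coeff : ∀ j : ℕ, (E j).coeff j = 1 := by
  intro j
  induction j with
  | zero => simp [E]
  | succ j ih =>
    rw [E, coeff_X_mul, coeff_add, coeff_C_mul, ih, sub_mul, one_mul, coeff_sub, coeff_derivative,
      coeff_eq_zero_of_natDegree_lt (show (E j).natDegree < j + 1 by have := E_natDegree_le j; omega)]
    rcases j with _ | j
    · simp
    · rw [coeff_X_mul, coeff_derivative, ih]
      push_cast
      ring

theorem W_coeff (c : ℝ) (N : ℕ) : (W c N).coeff (N + 2) = (1 + c) ^ 2 := by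
  have hE : ∀ j i : ℕ, j < i → (E j).coeff i = 0 := fun j i h =>
    coeff_eq_zero_of_natDegree_lt (lt_of_le_of_lt (E_natDegree_le j) h)
  have e : W c N = E (N + 2) - C (2 * c) * (E (N + 1) - X * E (N + 1)) +
      C (c ^ 2) * (E N - X * E N - (X * E N - X * (X * E N))) := by
    unfold W
    ring
  rw [e]
  simp only [coeff_add, coeff_sub, coeff_C_mul]
  rw [show N + 2 = (N + 1) + 1 from rfl]
  simp only [coeff_X_mul]
  rw [E_coeff, hE (N + 1) (N + 1 + 1) (by omega), hE N (N + 1 + 1) (by omega), hE N (N + 1) (by omega),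
    E_coeff, E_coeff]
  ring

theorem W_leadingCoeff_nonneg {c : ℝ} (hc : 0 ≤ c) (N : ℕ) : 0 ≤ (W c N).leadingCoeff := by
  have h1 := W_coeff c N
  have h2 : (W c N).natDegree = N + 2 := by
    refine le_antisymm (W_natDegree_le c N) ?_
    refine le_natDegree_of_ne_zero ?_
    rw [h1]
    positivity
  unfold leadingCoeff
  rw [h2, h1]
  positivity

theorem W_series (c : ℝ) (N : ℕ) : (W c N : PowerSeries ℝ) * G ^ (N + 3) =
    PowerSeries.mk fun k : ℕ => (k : ℝ) ^ N * ((k : ℝ) - c) ^ 2 := by
  have h1 : (W c N : PowerSeries ℝ) * G ^ (N + 3) = A (N + 2) - PowerSeries.C (2 * c) * A (N + 1) +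
      PowerSeries.C (c ^ 2) * A N := by
    rw [A_eq, A_eq, A_eq]
    unfold W
    push_cast
    have hG := G_mul
    have e1 : G ^ (N + 3) = G ^ (N + 2 + 1) := rfl
    have e2 : (1 - PowerSeries.X : PowerSeries ℝ) * G ^ (N + 3) = G ^ (N + 1 + 1) := by
      calc (1 - PowerSeries.X : PowerSeries ℝ) * G ^ (N + 3) = (G * (1 - PowerSeries.X)) * G ^ (N + 2) := by ring
        _ = _ := by rw [hG, one_mul]
    have e3 : (1 - PowerSeries.X : PowerSeries ℝ) ^ 2 * G ^ (N + 3) = G ^ (N + 1) := by
      calc (1 - PowerSeries.X : PowerSeries ℝ) ^ 2 * G ^ (N + 3) =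
          (G * (1 - PowerSeries.X)) ^ 2 * G ^ (N + 1) := by ring
        _ = _ := by rw [hG, one_pow, one_mul]
    linear_combination (-(PowerSeries.C (2 * c) * (E (N + 1) : PowerSeries ℝ))) * e2 +
      (PowerSeries.C (c ^ 2) * (E N : PowerSeries ℝ)) * e3
  rw [h1]
  ext k
  simp only [map_add, map_sub, PowerSeries.coeff_C_mul, A, PowerSeries.coeff_mk]
  ring

theorem values_TP {c : ℝ} (hc : 0 ≤ c) {N : ℕ}
    (h : ∀ z : ℂ, aeval z (W c N) = 0 → z.im = 0 ∧ z.re ≤ 0) (m : ℕ) :
    TP m fun k : ℕ => (k : ℝ) ^ N * ((k : ℝ) - c) ^ 2 := by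
  have h1 : TP m (W c N).coeff := TP_realrooted m _ _ rfl (W_leadingCoeff_nonneg hc N) h
  have h2 : TP m fun n => PowerSeries.coeff n (W c N : PowerSeries ℝ) := by
    simpa [Polynomial.coeff_coe] using h1
  have h3 := TP_mul_G_pow h2 (N + 3)
  rw [W_series] at h3
  simpa using h3

end Q195.ZG
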