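import Mathlib

set_option autoImplicit false

/-!
# Sign alternations: anchored Rolle and discrete Rolle
-/

open Set Filter Topology

namespace Q195.ZG

/-- `f` alternates `m` times on points starting at `p`. -/
def Alt (f : ℝ → ℝ) (p : ℝ) (m : ℕ) : Prop :=
  ∃ x : ℕ → ℝ, x 0 = p ∧ (∀ i < m, x i < x (i + 1)) ∧ ∀ i ≤ m, 0 < (-1) ^ i * f p * f (x i)

theorem lt_of_steps {x : ℕ → ℝ} {m : ℕ} (h : ∀ i < m, x i < x (i + 1)) {i j : ℕ} (hij : i < j)
    (hj : j ≤ m) : x i < x j := by
  induction j with
  | zero => omega
  | succ j ih =>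
    rcases Nat.lt_succ_iff_lt_or_eq.1 hij with h1 | h1
    · exact (ih h1 (by omega)).trans (h j (by omega))
    · rw [h1]; exact h j (by omega)

/-- A derivative point between two values (interior version). -/
theorem exists_deriv {f f' : ℝ → ℝ} {c : ℝ} {a b s : ℝ} (ha : 0 < a) (hab : a < b)
    (hd : ∀ x, 0 < x → HasDerivAt f (f' x) x) (h : 0 < s * (b ^ (-c) * f b - a ^ (-c) * f a)) :
    ∃ y, a < y ∧ y < b ∧ 0 < s * (y * f' y - c * f y) := by
  have hu : ∀ x, 0 < x → HasDerivAt (fun x => x ^ (-c) * f x)
      (x ^ (-c - 1) * (x * f' x - c * f x)) x := by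
    intro x hx
    have h1 := (Real.hasDerivAt_rpow_const (x := x) (p := -c) (Or.inl hx.ne')).mul (hd x hx)
    refine h1.congr_deriv ?_
    have h2 : x ^ (-c) = x ^ (-c - 1) * x := by
      rw [← Real.rpow_add_one hx.ne']
      congr 1
      ring
    rw [h2]
    ring
  obtain ⟨y, hy, e⟩ := exists_hasDerivAt_eq_slope (fun x => x ^ (-c) * f x)
    (fun x => x ^ (-c - 1) * (x * f' x - c * f x)) hab
    (fun x hx => (hu x (ha.trans_le hx.1)).continuousAt.continuousWithinAt)
    (fun x hx => hu x (ha.trans hx.1))
  refine ⟨y, hy.1, hy.2, ?_⟩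
  have hy0 : 0 < y := ha.trans hy.1
  have hpos : 0 < y ^ (-c - 1) := Real.rpow_pos_of_pos hy0 _
  have hba : 0 < b - a := sub_pos.2 hab
  rw [eq_div_iff hba.ne'] at e
  have h3 : 0 < y ^ (-c - 1) * (b - a) * (s * (y * f' y - c * f y)) := by
    calc 0 < s * (b ^ (-c) * f b - a ^ (-c) * f a) := h
      _ = y ^ (-c - 1) * (b - a) * (s * (y * f' y - c * f y)) := by rw [← e]; ring
  exact (mul_pos_iff_of_pos_left (mul_pos hpos hba)).1 h3

theorem anchored {f f' : ℝ → ℝ} {c p : ℝ} {m : ℕ} (hc : 0 ≤ c) (hp : 0 < p)
    (hd : ∀ x, 0 < x → HasDerivAt f (f' x) x) (hlim : Tendsto f atTop (𝓝 0)) (h : Alt f p m)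
    (h0 : p * f' p - c * f p ≠ 0) :
    Alt (fun x => x * f' x - c * f x) p (m + if 0 < f p * (p * f' p - c * f p) then 1 else 0) := by
  classical
  obtain ⟨x, hx0, hx, hs⟩ := h
  have hxp : ∀ i ≤ m, p ≤ x i := by
    intro i hi
    rcases Nat.eq_zero_or_pos i with h1 | h1
    · rw [h1, hx0]
    · rw [← hx0]; exact (lt_of_steps hx h1 hi).le
  -- the points `y i`
  have hy : ∀ i ≤ m, ∃ y, x i < y ∧ (i < m → y < x (i + 1)) ∧
      0 < (-1) ^ (i + 1) * f p * (y * f' y - c * f y) := by
    intro i hi
    have hxi : 0 < x i := hp.trans_le (hxp i hi)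
    have hsi := hs i hi
    have hpos : 0 < x i ^ (-c) := Real.rpow_pos_of_pos hxi _
    rcases Nat.lt_or_ge i m with h1 | h1
    · have hs1 := hs (i + 1) h1
      have hpos1 : 0 < x (i + 1) ^ (-c) := Real.rpow_pos_of_pos (hxi.trans (hx i h1)) _
      obtain ⟨y, hy1, hy2, hy3⟩ := exists_deriv (f := f) (f' := f') (c := c) (s := (-1) ^ (i + 1) * f p)
        hxi (hx i h1) hd (by
          have e1 : (-1) ^ (i + 1) * f p * (x (i + 1) ^ (-c) * f (x (i + 1)) - x i ^ (-c) * f (x i)) =
            x (i + 1) ^ (-c) * ((-1) ^ (i + 1) * f p * f (x (i + 1))) +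
            x i ^ (-c) * ((-1) ^ i * f p * f (x i)) := by rw [pow_succ]; ring
          rw [e1]
          exact add_pos (mul_pos hpos1 hs1) (mul_pos hpos hsi))
      exact ⟨y, hy1, fun _ => hy2, hy3⟩
    · -- the last one
      set v := x i ^ (-c) * ((-1) ^ i * f p * f (x i)) with hv
      have hvpos : 0 < v := mul_pos hpos hsi
      have hfp : f p ≠ 0 := by
        intro h2
        rw [h2] at hsi
        simp at hsi
      have hfp' : 0 < |f p| := abs_pos.2 hfp
      have h2 : ∀ᶠ X in atTop, |f X| < v / |f p| := by
        have := (Metric.tendsto_atTop.1 hlim) (v / |f p|) (div_pos hvpos hfp')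
        obtain ⟨N, hN⟩ := this
        filter_upwards [eventually_ge_atTop N] with X hX
        have := hN X hX
        rwa [Real.dist_eq, sub_zero] at this
      obtain ⟨X, hX1, hX2, hX3⟩ := (h2.and ((eventually_ge_atTop 1).and (eventually_gt_atTop (x i)))).exists
      have hX0 : 0 < X := hxi.trans hX3
      have hXc : X ^ (-c) ≤ 1 := by
        rw [Real.rpow_neg hX0.le]
        exact inv_le_one_of_one_le₀ (Real.one_le_rpow hX2 hc)
      have hXc0 : 0 < X ^ (-c) := Real.rpow_pos_of_pos hX0 _
      obtain ⟨y, hy1, hy2, hy3⟩ := exists_deriv (f := f) (f' := f') (c := c) (s := (-1) ^ (i + 1) * f p)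
        hxi hX3 hd (by
          have e1 : (-1) ^ (i + 1) * f p * (X ^ (-c) * f X - x i ^ (-c) * f (x i)) =
            v + (-1) ^ (i + 1) * f p * (X ^ (-c) * f X) := by rw [hv, pow_succ]; ring
          rw [e1]
          have e2 : |(-1) ^ (i + 1) * f p * (X ^ (-c) * f X)| < v := by
            rw [abs_mul, abs_mul, abs_pow, abs_neg, abs_one, one_pow, one_mul, abs_mul,
              abs_of_pos hXc0]
            rw [lt_div_iff₀ hfp'] at hX1
            calc |f p| * (X ^ (-c) * |f X|) ≤ |f p| * (1 * |f X|) := by gcongr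
              _ = |f X| * |f p| := by ring
              _ < v := hX1
          have := abs_lt.1 e2
          linarith [this.1])
      exact ⟨y, hy1, fun h3 => absurd h3 (by omega), hy3⟩
  choose! y hy1 hy2 hy3 using hy
  have hystep : ∀ i < m, y i < y (i + 1) := fun i hi =>
    (hy2 i hi.le hi).trans (hy1 (i + 1) hi)
  have hfp0 : 0 < f p * f p := by
    have := hs 0 (Nat.zero_le m)
    rw [hx0] at this
    simpa using this
  split_ifs with hpos
  · -- same sign at `p`
    refine ⟨fun i => if i = 0 then p else y (i - 1), by simp, ?_, ?_⟩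
    · intro i hi
      beta_reduce
      rcases Nat.eq_zero_or_pos i with h1 | h1
      · subst h1
        simp only [if_true, zero_add, one_ne_zero, if_false, Nat.sub_self]
        exact (hxp 0 (Nat.zero_le m)).trans_lt (hy1 0 (Nat.zero_le m))
      · rw [if_neg (by omega), if_neg (by omega)]
        have := hystep (i - 1) (by omega)
        rwa [show i - 1 + 1 = i + 1 - 1 by omega] at this
    · intro i hi
      beta_reduce
      rcases Nat.eq_zero_or_pos i with h1 | h1
      · subst h1
        simp only [if_true, pow_zero, one_mul]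
        exact mul_self_pos.2 h0
      · beta_reduce
        rw [if_neg (by omega)]
        have h2 := hy3 (i - 1) (by omega)
        rw [show i - 1 + 1 = i by omega] at h2
        have h3 := mul_pos h2 hpos
        have e : (-1) ^ i * f p * (y (i - 1) * f' (y (i - 1)) - c * f (y (i - 1))) *
          (f p * (p * f' p - c * f p)) = (f p * f p) * ((-1) ^ i * (p * f' p - c * f p) *
            (y (i - 1) * f' (y (i - 1)) - c * f (y (i - 1)))) := by ring
        rw [e] at h3
        exact (mul_pos_iff_of_pos_left hfp0).1 h3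
  · have hneg : 0 < -(f p * (p * f' p - c * f p)) := by
      have h1 : f p * (p * f' p - c * f p) ≠ 0 := by
        refine mul_ne_zero ?_ h0
        intro h2
        rw [h2] at hfp0
        simp at hfp0
      rcases lt_or_gt_of_ne h1 with h2 | h2
      · linarith
      · exact absurd h2 hpos
    refine ⟨fun i => if i = 0 then p else y i, by simp, ?_, ?_⟩
    · intro i hi
      beta_reduce
      rw [if_neg (show ¬ i + 1 = 0 by omega)]
      split_ifs with h1
      · subst h1
        exact (hxp 0 (Nat.zero_le m)).trans_lt ((hy1 0 (Nat.zero_le m)).trans (hystep 0 (by omega)))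
      · exact hystep i (by omega)
    · intro i hi
      beta_reduce
      rcases Nat.eq_zero_or_pos i with h1 | h1
      · subst h1
        simp only [if_true, pow_zero, one_mul]
        exact mul_self_pos.2 h0
      · beta_reduce
        rw [if_neg (by omega)]
        have h2 := hy3 i (by omega)
        have h3 := mul_pos h2 hneg
        have e : (-1) ^ (i + 1) * f p * (y i * f' (y i) - c * f (y i)) *
          (-(f p * (p * f' p - c * f p))) = (f p * f p) * ((-1) ^ i * (p * f' p - c * f p) *
            (y i * f' (y i) - c * f (y i))) := by rw [pow_succ]; ring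
        rw [e] at h3
        exact (mul_pos_iff_of_pos_left hfp0).1 h3

/-! ### Sequences -/

/-- `y` alternates `m` times on `[0, M]`. -/
def AltSeq (y : ℕ → ℝ) (M m : ℕ) : Prop :=
  ∃ (t : ℕ → ℕ) (σ : ℝ), (∀ i < m, t i < t (i + 1)) ∧ t m ≤ M ∧ ∀ i ≤ m, 0 < (-1) ^ i * σ * y (t i)

theorem discrete {y : ℕ → ℝ} {M m : ℕ} {r : ℝ} (hr : 0 ≤ r) (h : AltSeq y (M + 1) (m + 1)) :
    AltSeq (fun j => y (j + 1) - r * y j) M m := by
  obtain ⟨t, σ, ht, htM, hs⟩ := h
  have key : ∀ i ≤ m, ∃ l, t i ≤ l ∧ l < t (i + 1) ∧
      0 < (-1) ^ (i + 1) * σ * (y (l + 1) - r * y l) := by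
    intro i hi
    by_contra hcon
    push Not at hcon
    have h1 : ∀ n, t i + n ≤ t (i + 1) → (-1) ^ (i + 1) * σ * y (t i + n) ≤ 0 := by
      intro n
      induction n with
      | zero =>
        intro _
        have := hs i (by omega)
        rw [add_zero, pow_succ]
        linarith
      | succ n ih =>
        intro hn
        have h2 := ih (by omega)
        have h3 := hcon (t i + n) (by omega) (by omega)
        have h4 : (-1) ^ (i + 1) * σ * y (t i + n + 1) ≤ r * ((-1) ^ (i + 1) * σ * y (t i + n)) := by
          linarith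
        rw [← add_assoc]
        exact h4.trans (mul_nonpos_of_nonneg_of_nonpos hr h2)
    have h5 := h1 (t (i + 1) - t i) (by have := ht i (by omega); omega)
    have h6 : t i + (t (i + 1) - t i) = t (i + 1) := by have := ht i (by omega); omega
    rw [h6] at h5
    have := hs (i + 1) (by omega)
    linarith
  choose! l hl1 hl2 hl3 using key
  refine ⟨l, -σ, ?_, ?_, ?_⟩
  · intro i hi
    exact (hl2 i hi.le).trans_le (hl1 (i + 1) hi)
  · have := hl2 m le_rfl
    omega
  · intro i hi
    have := hl3 i hi
    rw [pow_succ] at this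
    show 0 < (-1) ^ i * -σ * (y (l i + 1) - r * y (l i))
    linarith

/-- Counting sign changes of a nonvanishing sequence. -/
theorem altSeq_of_count {y : ℕ → ℝ} : ∀ N : ℕ, (∀ j ≤ N, y j ≠ 0) →
    ∃ (t : ℕ → ℕ) (σ : ℝ), (∀ i < ((Finset.range N).filter fun j => y j * y (j + 1) < 0).card,
      t i < t (i + 1)) ∧ t ((Finset.range N).filter fun j => y j * y (j + 1) < 0).card = N ∧
      ∀ i ≤ ((Finset.range N).filter fun j => y j * y (j + 1) < 0).card, 0 < (-1) ^ i * σ * y (t i) := by
  intro N
  induction N with
  | zero =>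
    intro h0
    refine ⟨fun _ => 0, y 0, by simp, by simp, ?_⟩
    intro i hi
    simp only [Finset.range_zero, Finset.filter_empty, Finset.card_empty, Nat.le_zero] at hi
    subst hi
    simpa using mul_self_pos.2 (h0 0 le_rfl)
  | succ N ih =>
    intro h0
    obtain ⟨t, σ, h1, h2, h3⟩ := ih fun j hj => h0 j (by omega)
    set m := ((Finset.range N).filter fun j => y j * y (j + 1) < 0).card with hm
    rw [Finset.range_add_one, Finset.filter_insert]
    have h4 := h3 m le_rfl
    rw [h2] at h4
    split_ifs with hlt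
    · rw [Finset.card_insert_of_notMem (by simp), ← hm]
      refine ⟨fun i => if i ≤ m then t i else N + 1, σ, ?_, ?_, ?_⟩
      · intro i hi
        beta_reduce
        rcases Nat.lt_or_ge i m with h5 | h5
        · rw [if_pos h5.le, if_pos (by omega)]; exact h1 i h5
        · have : i = m := by omega
          subst this
          rw [if_pos le_rfl, if_neg (by omega), h2]
          omega
      · beta_reduce
        rw [if_neg (by omega)]
      · intro i hi
        beta_reduce
        rcases Nat.lt_or_ge m i with h5 | h5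
        · have : i = m + 1 := by omega
          subst this
          rw [if_neg (by omega)]
          have h6 := mul_pos_of_neg_of_neg (neg_neg_of_pos h4) hlt
          have e : -((-1) ^ m * σ * y N) * (y N * y (N + 1)) = (y N * y N) * ((-1) ^ (m + 1) * σ * y (N + 1)) := by
            rw [pow_succ]; ring
          rw [e] at h6
          exact (mul_pos_iff_of_pos_left (mul_self_pos.2 (h0 N (by omega)))).1 h6
        · rw [if_pos h5]
          exact h3 i h5
    · rw [← hm]
      have hgt : 0 < y N * y (N + 1) := by
        rcases lt_or_gt_of_ne (mul_ne_zero (h0 N (by omega)) (h0 (N + 1) le_rfl)) with h5 | h5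
        · exact absurd h5 hlt
        · exact h5
      refine ⟨fun i => if i < m then t i else N + 1, σ, ?_, ?_, ?_⟩
      · intro i hi
        beta_reduce
        rw [if_pos hi]
        split_ifs with h5
        · exact h1 i hi
        · have := h1 i hi
          have h6 : i + 1 = m := by omega
          rw [h6, h2] at this
          omega
      · beta_reduce
        rw [if_neg (by omega)]
      · intro i hi
        beta_reduce
        rcases Nat.lt_or_ge i m with h5 | h5
        · rw [if_pos h5]
          exact h3 i hi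
        · have : i = m := by omega
          subst this
          rw [if_neg (by omega)]
          have h6 := mul_pos h4 hgt
          have e : (-1) ^ m * σ * y N * (y N * y (N + 1)) = (y N * y N) * ((-1) ^ m * σ * y (N + 1)) := by ring
          rw [e] at h6
          exact (mul_pos_iff_of_pos_left (mul_self_pos.2 (h0 N (by omega)))).1 h6

end Q195.ZG
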